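import Mathlib

/-!
# Openness of multiplication in `C(X, ℂ)` for `dim X ≤ 1`: topological preliminaries
-/

open Set Topology

namespace Pool.Agent.U317.OM

/-- Lebesgue covering dimension at most `n`: every finite open cover has a finite open refinement
such that every point lies in at most `n + 1` of its members. -/
def CoverDimLE (X : Type*) [TopologicalSpace X] (n : ℕ) : Prop :=
  ∀ (ι : Type) (_ : Finite ι) (U : ι → Set X), (∀ i, IsOpen (U i)) → (⋃ i, U i) = Set.univ →
    ∃ (κ : Type) (_ : Finite κ) (V : κ → Set X), (∀ k, IsOpen (V k)) ∧ (⋃ k, V k) = Set.univ ∧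
      (∀ k, ∃ i, V k ⊆ U i) ∧ ∀ x, {k | x ∈ V k}.ncard ≤ n + 1

/-- perturbing finitely many points of the plane so that they lie on pairwise distinct lines
through the origin -/
lemma exists_slopes (κ : Type) [Finite κ] (w : κ → ℂ) {r : ℝ} (hr : 0 < r) :
    ∃ (x m : κ → ℝ), (∀ k, x k ≠ 0) ∧ (∀ k l, k ≠ l → m k ≠ m l) ∧
      ∀ k, ‖(⟨x k, x k * m k⟩ : ℂ) - w k‖ < r := by
  classical
  have := Fintype.ofFinite κ
  -- choose `x k ≠ 0` near `re (w k)`
  have hx : ∀ k, ∃ x : ℝ, x ≠ 0 ∧ |x - (w k).re| < r / 2 := by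
    intro k
    by_cases h : (w k).re = 0
    · refine ⟨r / 4, by positivity, ?_⟩
      rw [h, sub_zero, abs_of_pos (by positivity)]
      linarith
    · exact ⟨(w k).re, h, by simp; positivity⟩
  choose x hx0 hxr using hx
  -- injection into the reals
  obtain ⟨n, ⟨e⟩⟩ := Finite.exists_equiv_fin κ
  set c : κ → ℝ := fun k => ((e k : ℕ) : ℝ) with hc
  have hcinj : ∀ k l, k ≠ l → c k ≠ c l := by
    intro k l hkl h
    apply hkl
    apply e.injective
    apply Fin.ext
    have h' : ((e k : ℕ) : ℝ) = ((e l : ℕ) : ℝ) := h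
    exact_mod_cast h'
  set μ : κ → ℝ := fun k => (w k).im / x k with hμ
  -- bad set
  set bad : Finset ℝ := (Finset.univ : Finset (κ × κ)).image
    (fun p => -(μ p.1 - μ p.2) / (c p.1 - c p.2)) with hbad
  -- bound on `|x k * c k|`
  obtain ⟨B, hB0, hB⟩ : ∃ B : ℝ, 0 < B ∧ ∀ k, |x k * c k| ≤ B := by
    refine ⟨1 + ∑ k, |x k * c k|, by positivity, fun k => ?_⟩
    have := Finset.single_le_sum (f := fun k => |x k * c k|) (fun i _ => abs_nonneg _)
      (Finset.mem_univ k)
    linarith
  have hinf : (Set.Ioo (0 : ℝ) (r / (2 * B))).Infinite := Set.Ioo_infinite (by positivity)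
  obtain ⟨s, hs, hsbad⟩ := hinf.exists_notMem_finset bad
  refine ⟨x, fun k => μ k + s * c k, hx0, ?_, ?_⟩
  · intro k l hkl h
    apply hsbad
    rw [hbad, Finset.mem_image]
    refine ⟨(k, l), Finset.mem_univ _, ?_⟩
    have hne : c k - c l ≠ 0 := sub_ne_zero.mpr (hcinj k l hkl)
    rw [div_eq_iff hne]
    simp only at h
    linarith
  · intro k
    have hre : |(x k) - (w k).re| < r / 2 := hxr k
    have him : |x k * (μ k + s * c k) - (w k).im| < r / 2 := by
      have h1 : x k * (μ k + s * c k) - (w k).im = s * (x k * c k) := by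
        rw [hμ]; field_simp [hx0 k]; ring
      rw [h1, abs_mul, abs_of_pos hs.1]
      calc s * |x k * c k| ≤ s * B := by
            exact mul_le_mul_of_nonneg_left (hB k) hs.1.le
        _ < r / (2 * B) * B := by
            exact mul_lt_mul_of_pos_right hs.2 hB0
        _ = r / 2 := by field_simp
    calc ‖(⟨x k, x k * (μ k + s * c k)⟩ : ℂ) - w k‖
        ≤ |((⟨x k, x k * (μ k + s * c k)⟩ : ℂ) - w k).re|
          + |((⟨x k, x k * (μ k + s * c k)⟩ : ℂ) - w k).im| := Complex.norm_le_abs_re_add_abs_im _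
      _ < r := by
          simp only [Complex.sub_re, Complex.sub_im]
          linarith

/-- on a space of covering dimension at most one, every complex function is a uniform limit of
functions without zeros -/
lemma exists_nonvanishing {X : Type*} [TopologicalSpace X] [CompactSpace X] [T2Space X]
    (hX : CoverDimLE X 1) (f : C(X, ℂ)) {r : ℝ} (hr : 0 < r) :
    ∃ g : C(X, ℂ), (∀ x, g x ≠ 0) ∧ ∀ x, ‖g x - f x‖ < r := by
  classical
  -- finite cover of the range by small balls
  have hcomp : IsCompact (Set.range f) := isCompact_range f.continuous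
  obtain ⟨t, htsub, htfin, htcov⟩ := hcomp.finite_cover_balls (e := r / 4) (by positivity)
  have hfin : Finite t := htfin
  obtain ⟨κ, hκ, V, hVo, hVcov, hVsub, hVord⟩ := hX t hfin
    (fun z => f ⁻¹' Metric.ball (z : ℂ) (r / 4))
    (fun z => Metric.isOpen_ball.preimage f.continuous) (by
      ext x
      simp only [mem_iUnion, mem_univ, iff_true]
      have hx := htcov (Set.mem_range_self x)
      simp only [mem_iUnion] at hx
      obtain ⟨z, hz, hxz⟩ := hx
      exact ⟨⟨z, hz⟩, hxz⟩)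
  choose i hi using hVsub
  obtain ⟨xx, m, hxx, hm, hnear⟩ := exists_slopes κ (fun k => ((i k : t) : ℂ)) (r := r / 4)
    (by positivity)
  have hfκ : Fintype κ := Fintype.ofFinite κ
  obtain ⟨ρ, hρ⟩ := PartitionOfUnity.exists_isSubordinate_of_locallyFinite (X := X)
    isClosed_univ V hVo (locallyFinite_of_finite V) (by rw [hVcov])
  set z : κ → ℂ := fun k => ⟨xx k, xx k * m k⟩ with hz
  have hρV : ∀ k x, ρ k x ≠ 0 → x ∈ V k := by
    intro k x hkx
    exact hρ k (subset_tsupport _ hkx)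
  have hsum : ∀ x, ∑ k, ρ k x = 1 := by
    intro x
    have := ρ.sum_eq_one (mem_univ x)
    rwa [finsum_eq_sum_of_fintype] at this
  refine ⟨∑ k, (⟨fun x => ((ρ k x : ℝ) : ℂ) * z k, by fun_prop⟩ : C(X, ℂ)), ?_, ?_⟩
  · intro x h0
    rw [ContinuousMap.sum_apply] at h0
    simp only [ContinuousMap.coe_mk] at h0
    set T : Finset κ := Finset.univ.filter (fun k => ρ k x ≠ 0) with hT
    have hTcard : T.card ≤ 2 := by
      have h1 : (T : Set κ) ⊆ {k | x ∈ V k} := by
        intro k hk
        simp only [hT, Finset.coe_filter, Finset.mem_univ, true_and, Set.mem_ofPred_eq] at hk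
        exact hρV k x hk
      have h2 := Set.ncard_le_ncard h1 (Set.toFinite _)
      rw [Set.ncard_coe_finset] at h2
      exact h2.trans (hVord x)
    have hsumT : ∑ k ∈ T, ρ k x = 1 := by
      rw [← hsum x, hT, Finset.sum_filter_ne_zero]
    have h0T : ∑ k ∈ T, ((ρ k x : ℝ) : ℂ) * z k = 0 := by
      rw [← h0]
      refine Finset.sum_subset (Finset.subset_univ _) ?_
      intro k _ hk
      simp only [hT, Finset.mem_filter, Finset.mem_univ, true_and, not_not] at hk
      rw [hk]; simp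
    interval_cases hc : T.card
    · rw [Finset.card_eq_zero] at hc
      rw [hc] at hsumT
      simp at hsumT
    · rw [Finset.card_eq_one] at hc
      obtain ⟨k, hk⟩ := hc
      rw [hk, Finset.sum_singleton] at hsumT h0T
      rw [hsumT] at h0T
      have hre := congrArg Complex.re h0T
      simp [hz] at hre
      exact hxx k hre
    · rw [Finset.card_eq_two] at hc
      obtain ⟨k, l, hkl, hTkl⟩ := hc
      have hkT : ρ k x ≠ 0 := by
        have : k ∈ T := by rw [hTkl]; simp
        simpa [hT] using this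
      rw [hTkl, Finset.sum_pair hkl] at h0T
      have hre := congrArg Complex.re h0T
      have him := congrArg Complex.im h0T
      simp only [hz, Complex.add_re, Complex.add_im, Complex.mul_re, Complex.mul_im,
        Complex.ofReal_re, Complex.ofReal_im, zero_mul, sub_zero, add_zero, Complex.zero_re,
        Complex.zero_im] at hre him
      have h3 : ρ k x * xx k * (m k - m l) = 0 := by
        linear_combination him - m l * hre
      rcases mul_eq_zero.mp h3 with h4 | h4
      · rcases mul_eq_zero.mp h4 with h5 | h5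
        · exact hkT h5
        · exact hxx k h5
      · exact hm k l hkl (sub_eq_zero.mp h4)
  · intro x
    rw [ContinuousMap.sum_apply]
    simp only [ContinuousMap.coe_mk]
    have h1 : ∑ k, ((ρ k x : ℝ) : ℂ) * z k - f x = ∑ k, ((ρ k x : ℝ) : ℂ) * (z k - f x) := by
      simp only [mul_sub, Finset.sum_sub_distrib, ← Finset.sum_mul]
      rw [← Complex.ofReal_sum, hsum x]
      simp
    rw [h1]
    have h2 : ∀ k, ‖((ρ k x : ℝ) : ℂ) * (z k - f x)‖ ≤ ρ k x * (r / 2) := by
      intro k
      rw [norm_mul, Complex.norm_real, Real.norm_of_nonneg (ρ.nonneg k x)]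
      by_cases hk : ρ k x = 0
      · rw [hk]; simp
      · refine mul_le_mul_of_nonneg_left ?_ (ρ.nonneg k x)
        have hxV := hi k (hρV k x hk)
        simp only [mem_preimage, Metric.mem_ball, dist_eq_norm] at hxV
        have h4 := hnear k
        calc ‖z k - f x‖ = ‖(z k - (i k : ℂ)) + ((i k : ℂ) - f x)‖ := by ring_nf
          _ ≤ ‖z k - (i k : ℂ)‖ + ‖(i k : ℂ) - f x‖ := norm_add_le _ _
          _ ≤ r / 2 := by rw [norm_sub_rev (i k : ℂ)]; linarith
    calc ‖∑ k, ((ρ k x : ℝ) : ℂ) * (z k - f x)‖ ≤ ∑ k, ‖((ρ k x : ℝ) : ℂ) * (z k - f x)‖ :=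
          norm_sum_le _ _
      _ ≤ ∑ k, ρ k x * (r / 2) := Finset.sum_le_sum (fun k _ => h2 k)
      _ = r / 2 := by rw [← Finset.sum_mul, hsum x, one_mul]
      _ < r := by linarith

/-- unimodular functions on closed subsets extend -/
lemma ext_circle {X : Type*} [TopologicalSpace X] [CompactSpace X] [T2Space X]
    (hX : CoverDimLE X 1) {A : Set X} (hA : IsClosed A) (φ : X → ℂ) (hφ : ContinuousOn φ A)
    (h1 : ∀ x ∈ A, ‖φ x‖ = 1) :
    ∃ ψ : C(X, ℂ), (∀ x, ‖ψ x‖ = 1) ∧ ∀ x ∈ A, ψ x = φ x := by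
  obtain ⟨u, hu⟩ := ContinuousMap.exists_restrict_eq hA
    (⟨A.domRestrict φ, hφ.domRestrict⟩ : C(A, ℂ))
  have hu' : ∀ x ∈ A, u x = φ x := by
    intro x hx
    exact congrArg (fun g : C(A, ℂ) => g ⟨x, hx⟩) hu
  obtain ⟨v, hv0, hv⟩ := exists_nonvanishing hX u (r := 1 / 2) (by norm_num)
  have hvn : ∀ x, ((‖v x‖ : ℝ) : ℂ) ≠ 0 := by
    intro x; exact_mod_cast (norm_pos_iff.mpr (hv0 x)).ne'
  set w : X → ℂ := fun x => v x / ((‖v x‖ : ℝ) : ℂ) with hw
  have hwc : Continuous w := by
    apply Continuous.div v.continuous (by fun_prop) hvn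
  have hw1 : ∀ x, ‖w x‖ = 1 := by
    intro x
    have h := (norm_pos_iff.mpr (hv0 x)).ne'
    simp only [hw, norm_div, Complex.norm_real, norm_norm]
    exact div_self h
  have hwv : ∀ x, ‖v x - w x‖ = |‖v x‖ - 1| := by
    intro x
    have h2 : v x - w x = (((‖v x‖ - 1 : ℝ)) : ℂ) * w x := by
      simp only [hw]; push_cast; field_simp [hvn x]
    rw [h2, norm_mul, hw1, mul_one, Complex.norm_real, Real.norm_eq_abs]
  -- the ratio on `A`
  have hq : ∀ x ∈ A, ‖φ x * (starRingEnd ℂ) (w x) - 1‖ < 1 := by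
    intro x hx
    have h3 : w x * (starRingEnd ℂ) (w x) = 1 := by
      rw [Complex.mul_conj, Complex.normSq_eq_norm_sq, hw1]; simp
    have h4 : φ x * (starRingEnd ℂ) (w x) - 1 = (φ x - w x) * (starRingEnd ℂ) (w x) := by
      rw [sub_mul, h3]
    rw [h4, norm_mul, RCLike.norm_conj, hw1, mul_one]
    have h5 : ‖v x - φ x‖ < 1 / 2 := by rw [← hu' x hx]; exact hv x
    have h6 : ‖v x - w x‖ < 1 / 2 := by
      rw [hwv]
      have h7 := abs_norm_sub_norm_le (v x) (φ x)
      rw [h1 x hx] at h7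
      linarith
    calc ‖φ x - w x‖ = ‖(φ x - v x) + (v x - w x)‖ := by ring_nf
      _ ≤ ‖φ x - v x‖ + ‖v x - w x‖ := norm_add_le _ _
      _ < 1 := by rw [norm_sub_rev]; linarith
  have hslit : ∀ x ∈ A, φ x * (starRingEnd ℂ) (w x) ∈ Complex.slitPlane := by
    intro x hx
    left
    have h8 := hq x hx
    have h9 := Complex.abs_re_le_norm (φ x * (starRingEnd ℂ) (w x) - 1)
    rw [Complex.sub_re, Complex.one_re] at h9
    have h10 := (abs_lt.mp (lt_of_le_of_lt h9 h8)).1
    linarith
  have hθc : ContinuousOn (fun x => Complex.arg (φ x * (starRingEnd ℂ) (w x))) A := by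
    intro x hx
    have hin : ContinuousWithinAt (fun x => φ x * (starRingEnd ℂ) (w x)) A x :=
      ((hφ x hx).mul ((Complex.continuous_conj.comp hwc).continuousWithinAt))
    exact ContinuousAt.comp_continuousWithinAt (g := Complex.arg)
      (f := fun x => φ x * (starRingEnd ℂ) (w x)) (Complex.continuousAt_arg (hslit x hx)) hin
  obtain ⟨Θ, hΘ⟩ := ContinuousMap.exists_restrict_eq hA
    (⟨A.domRestrict (fun x => Complex.arg (φ x * (starRingEnd ℂ) (w x))), hθc.domRestrict⟩ : C(A, ℝ))
  have hΘ' : ∀ x ∈ A, Θ x = Complex.arg (φ x * (starRingEnd ℂ) (w x)) := by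
    intro x hx
    exact congrArg (fun g : C(A, ℝ) => g ⟨x, hx⟩) hΘ
  refine ⟨⟨fun x => w x * Complex.exp ((Θ x : ℂ) * Complex.I), by fun_prop⟩, ?_, ?_⟩
  · intro x
    simp only [ContinuousMap.coe_mk]
    rw [norm_mul, hw1, Complex.norm_exp_ofReal_mul_I, mul_one]
  · intro x hx
    simp only [ContinuousMap.coe_mk]
    rw [hΘ' x hx]
    have h3 : w x * (starRingEnd ℂ) (w x) = 1 := by
      rw [Complex.mul_conj, Complex.normSq_eq_norm_sq, hw1]; simp
    have h11 : ‖φ x * (starRingEnd ℂ) (w x)‖ = 1 := by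
      rw [norm_mul, RCLike.norm_conj, hw1, h1 x hx, mul_one]
    have h12 := Complex.norm_mul_exp_arg_mul_I (φ x * (starRingEnd ℂ) (w x))
    rw [h11, Complex.ofReal_one, one_mul] at h12
    rw [h12]
    calc w x * (φ x * (starRingEnd ℂ) (w x)) = φ x * (w x * (starRingEnd ℂ) (w x)) := by ring
      _ = φ x := by rw [h3, mul_one]

/-- unimodular functions on relatively closed subsets of a cozero set `{m > 0}` extend to it -/
lemma ext_cozero {X : Type*} [TopologicalSpace X] [CompactSpace X] [T2Space X]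
    (hX : CoverDimLE X 1) (m : C(X, ℝ)) {F : Set X} (hF : IsClosed F) (φ : X → ℂ)
    (hφ : ContinuousOn φ (F ∩ {x | 0 < m x})) (h1 : ∀ x ∈ F, 0 < m x → ‖φ x‖ = 1) :
    ∃ a : X → ℂ, (∀ x, 0 < m x → ContinuousAt a x) ∧ (∀ x, ‖a x‖ = 1) ∧
      ∀ x ∈ F, 0 < m x → a x = φ x := by
  classical
  -- levels
  set e : ℕ → ℝ := fun n => 1 / ((n : ℝ) + 1) with he
  have he0 : ∀ n, 0 < e n := fun n => by rw [he]; positivity
  have hemono : ∀ n k, n ≤ k → e k ≤ e n := by
    intro n k hnk
    rw [he]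
    apply one_div_le_one_div_of_le (by positivity)
    have : (n : ℝ) ≤ k := by exact_mod_cast hnk
    linarith
  have hcl : ∀ n, IsClosed {x | e n ≤ m x} := fun n => isClosed_le continuous_const m.continuous
  let S : ℕ → Type _ := fun n => {ψ : C(X, ℂ) // (∀ x, ‖ψ x‖ = 1) ∧
    ∀ x ∈ F, e n ≤ m x → ψ x = φ x}
  have base : Nonempty (S 0) := by
    obtain ⟨ψ, h2, h3⟩ := ext_circle hX (hF.inter (hcl 0)) φ
      (hφ.mono (fun x hx => ⟨hx.1, lt_of_lt_of_le (he0 0) hx.2⟩))
      (fun x hx => h1 x hx.1 (lt_of_lt_of_le (he0 0) hx.2))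
    exact ⟨⟨ψ, h2, fun x hx hx2 => h3 x ⟨hx, hx2⟩⟩⟩
  have step : ∀ n (ψ : S n), ∃ ψ' : S (n + 1), ∀ x, e n ≤ m x → ψ'.1 x = ψ.1 x := by
    intro n ψ
    set χ : X → ℂ := fun x => if e n ≤ m x then ψ.1 x else φ x with hχ
    have hc1 : ContinuousOn χ {x | e n ≤ m x} := by
      apply ψ.1.continuous.continuousOn.congr
      intro x hx
      simp only [hχ, if_pos (show e n ≤ m x from hx)]
    have hc2 : ContinuousOn χ (F ∩ {x | e (n + 1) ≤ m x}) := by
      apply (hφ.mono (fun x hx => ⟨hx.1, lt_of_lt_of_le (he0 (n + 1)) hx.2⟩)).congr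
      intro x hx
      by_cases h : e n ≤ m x
      · simp only [hχ, if_pos h]; exact ψ.2.2 x hx.1 h
      · simp only [hχ, if_neg h]
    have hc := hc1.union_of_isClosed hc2 (hcl n) (hF.inter (hcl (n + 1)))
    obtain ⟨ψ', h2, h3⟩ := ext_circle hX ((hcl n).union (hF.inter (hcl (n + 1)))) χ hc (by
      intro x hx
      by_cases h : e n ≤ m x
      · simp only [hχ, if_pos h]; exact ψ.2.1 x
      · rcases hx with hx | hx
        · exact absurd hx h
        · simp only [hχ, if_neg h]
          exact h1 x hx.1 (lt_of_lt_of_le (he0 (n + 1)) hx.2))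
    refine ⟨⟨ψ', h2, ?_⟩, ?_⟩
    · intro x hx hx2
      rw [h3 x (Or.inr ⟨hx, hx2⟩)]
      by_cases h : e n ≤ m x
      · simp only [hχ, if_pos h]; exact ψ.2.2 x hx h
      · simp only [hχ, if_neg h]
    · intro x hx
      change ψ' x = ψ.1 x
      rw [h3 x (Or.inl hx)]
      simp only [hχ, if_pos hx]
  choose nxt hnxt using step
  let s : ∀ n, S n := fun n => Nat.rec base.some (fun n ψ => nxt n ψ) n
  have hs : ∀ n x, e n ≤ m x → (s (n + 1)).1 x = (s n).1 x := fun n x hx => hnxt n (s n) x hx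
  have hs' : ∀ n k x, n ≤ k → e n ≤ m x → (s k).1 x = (s n).1 x := by
    intro n k x hnk hx
    induction k, hnk using Nat.le_induction with
    | base => rfl
    | succ k hk ih => rw [hs k x (le_trans (hemono n k hk) hx), ih]
  -- index
  have hex : ∀ x, 0 < m x → ∃ n, e n < m x := by
    intro x hx
    obtain ⟨n, hn⟩ := exists_nat_one_div_lt hx
    exact ⟨n, by rw [he]; exact hn⟩
  set idx : X → ℕ := fun x => if h : 0 < m x then (hex x h).choose else 0 with hidx
  have hidx' : ∀ x, 0 < m x → e (idx x) < m x := by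
    intro x hx
    simp only [hidx, dif_pos hx]
    exact (hex x hx).choose_spec
  set a : X → ℂ := fun x => (s (idx x)).1 x with ha
  have hval : ∀ n x, e n ≤ m x → a x = (s n).1 x := by
    intro n x hx
    have hpos : 0 < m x := lt_of_lt_of_le (he0 n) hx
    have h4 := hidx' x hpos
    rw [ha]
    simp only
    rcases le_total n (idx x) with h | h
    · exact hs' n (idx x) x h hx
    · exact (hs' (idx x) n x h h4.le).symm
  refine ⟨a, ?_, ?_, ?_⟩
  · intro x hx
    obtain ⟨n, hn⟩ := hex x hx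
    have hnb : {y | e n < m y} ∈ 𝓝 x := (isOpen_lt continuous_const m.continuous).mem_nhds hn
    have h5 : a =ᶠ[𝓝 x] (s n).1 := by
      filter_upwards [hnb] with y hy
      exact hval n y (le_of_lt hy)
    exact ((s n).1.continuous.continuousAt).congr h5.symm
  · intro x
    exact (s (idx x)).2.1 x
  · intro x hx hpos
    exact (s (idx x)).2.2 x hx (hidx' x hpos).le

end Pool.Agent.U317.OM
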