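import Pool.Agent.U317.OM.A

/-!
# Openness of multiplication in `C(X, ℂ)` for `dim X ≤ 1`: the factorization
-/

open Set Topology

namespace Pool.Agent.U317.OM

/-- moving a complex number to the unit circle moves it at most twice -/
lemma norm_normalize_sub {z : ℂ} (hz : z ≠ 0) {p : ℝ} (hp : 0 ≤ p) :
    ‖(p : ℂ) * (z / ((‖z‖ : ℝ) : ℂ)) - p‖ ≤ 2 * ‖z - p‖ := by
  have hz' : (0 : ℝ) < ‖z‖ := norm_pos_iff.mpr hz
  have hzc : ((‖z‖ : ℝ) : ℂ) ≠ 0 := by exact_mod_cast hz'.ne'
  have h1 : (p : ℂ) * (z / ((‖z‖ : ℝ) : ℂ)) - z = (((p - ‖z‖ : ℝ)) : ℂ) * (z / ((‖z‖ : ℝ) : ℂ)) := by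
    push_cast; field_simp
  have h2 : ‖z / ((‖z‖ : ℝ) : ℂ)‖ = 1 := by
    rw [norm_div, Complex.norm_real, norm_norm]; exact div_self hz'.ne'
  have h3 : ‖(p : ℂ) * (z / ((‖z‖ : ℝ) : ℂ)) - z‖ ≤ ‖z - p‖ := by
    rw [h1, norm_mul, h2, mul_one, Complex.norm_real, Real.norm_eq_abs]
    have := abs_norm_sub_norm_le z (p : ℂ)
    rw [Complex.norm_real, Real.norm_of_nonneg hp] at this
    rwa [abs_sub_comm]
  calc ‖(p : ℂ) * (z / ((‖z‖ : ℝ) : ℂ)) - p‖
      = ‖((p : ℂ) * (z / ((‖z‖ : ℝ) : ℂ)) - z) + (z - p)‖ := by ring_nf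
    _ ≤ _ := norm_add_le _ _
    _ ≤ 2 * ‖z - p‖ := by linarith

/-- the moduli: `R S = m`, `R - S = c` -/
noncomputable def RR (c m : ℝ) : ℝ := (Real.sqrt (c ^ 2 + 4 * m) + c) / 2

/-- the moduli: `R S = m`, `R - S = c` -/
noncomputable def SS (c m : ℝ) : ℝ := (Real.sqrt (c ^ 2 + 4 * m) - c) / 2

lemma RR_mul_SS {c m : ℝ} (hm : 0 ≤ m) : RR c m * SS c m = m := by
  have h := Real.sq_sqrt (show 0 ≤ c ^ 2 + 4 * m by positivity)
  unfold RR SS
  linear_combination h / 4

lemma RR_nonneg {c m : ℝ} (hm : 0 ≤ m) : 0 ≤ RR c m := by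
  unfold RR
  have h1 : |c| ≤ Real.sqrt (c ^ 2 + 4 * m) := by
    rw [← Real.sqrt_sq_eq_abs]; exact Real.sqrt_le_sqrt (by linarith)
  have h2 := neg_abs_le c
  linarith

lemma SS_nonneg {c m : ℝ} (hm : 0 ≤ m) : 0 ≤ SS c m := by
  unfold SS
  have h1 : |c| ≤ Real.sqrt (c ^ 2 + 4 * m) := by
    rw [← Real.sqrt_sq_eq_abs]; exact Real.sqrt_le_sqrt (by linarith)
  have h2 := le_abs_self c
  linarith

lemma RR_eq_zero {c : ℝ} (hc : c ≤ 0) : RR c 0 = 0 := by
  unfold RR
  rw [mul_zero, add_zero, Real.sqrt_sq_eq_abs, abs_of_nonpos hc]; ring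

lemma SS_eq_zero {c : ℝ} (hc : 0 ≤ c) : SS c 0 = 0 := by
  unfold SS
  rw [mul_zero, add_zero, Real.sqrt_sq_eq_abs, abs_of_nonneg hc]; ring

lemma abs_sqrt_sub_sqrt_le {a b : ℝ} (ha : 0 ≤ a) (hb : 0 ≤ b) :
    |Real.sqrt a - Real.sqrt b| ≤ Real.sqrt |a - b| := by
  rw [abs_le]
  have h1 : Real.sqrt a ≤ Real.sqrt b + Real.sqrt |a - b| := by
    apply Real.sqrt_le_iff.mpr
    refine ⟨by positivity, ?_⟩
    have h2 := Real.sq_sqrt hb
    have h3 := Real.sq_sqrt (abs_nonneg (a - b))
    have h4 := le_abs_self (a - b)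
    nlinarith [mul_nonneg (Real.sqrt_nonneg b) (Real.sqrt_nonneg |a - b|)]
  have h1' : Real.sqrt b ≤ Real.sqrt a + Real.sqrt |a - b| := by
    apply Real.sqrt_le_iff.mpr
    refine ⟨by positivity, ?_⟩
    have h2 := Real.sq_sqrt ha
    have h3 := Real.sq_sqrt (abs_nonneg (a - b))
    have h4 := neg_abs_le (a - b)
    nlinarith [mul_nonneg (Real.sqrt_nonneg a) (Real.sqrt_nonneg |a - b|)]
  constructor <;> linarith

/-- `c ↦ √(c² + 4m)` is 1-Lipschitz -/
lemma abs_sqrt_lip {c c' m : ℝ} (hm : 0 ≤ m) :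
    |Real.sqrt (c ^ 2 + 4 * m) - Real.sqrt (c' ^ 2 + 4 * m)| ≤ |c - c'| := by
  have key : ∀ c c' : ℝ, Real.sqrt (c ^ 2 + 4 * m) ≤ Real.sqrt (c' ^ 2 + 4 * m) + |c - c'| := by
    intro c c'
    apply Real.sqrt_le_iff.mpr
    refine ⟨by positivity, ?_⟩
    have h2 := Real.sq_sqrt (show 0 ≤ c' ^ 2 + 4 * m by positivity)
    have h3 : |c'| ≤ Real.sqrt (c' ^ 2 + 4 * m) := by
      rw [← Real.sqrt_sq_eq_abs]; exact Real.sqrt_le_sqrt (by linarith)
    have h4 : c' * (c - c') ≤ |c'| * |c - c'| := by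
      rw [← abs_mul]; exact le_abs_self _
    have h5 : |c'| * |c - c'| ≤ Real.sqrt (c' ^ 2 + 4 * m) * |c - c'| :=
      mul_le_mul_of_nonneg_right h3 (abs_nonneg _)
    have h6 := sq_abs (c - c')
    nlinarith
  rw [abs_le]
  have h1 := key c c'
  have h2 := key c' c
  rw [abs_sub_comm] at h2
  constructor <;> linarith

lemma moduli_close {F G m c d : ℝ} (hF : 0 ≤ F) (hG : 0 ≤ G) (hm : 0 ≤ m) (hd : 0 ≤ d)
    (h : |m - F * G| ≤ d ^ 2) (hc : |c - (F - G)| ≤ d) :
    |RR c m - F| ≤ 2 * d ∧ |SS c m - G| ≤ 2 * d := by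
  have h1 := abs_sqrt_lip (c := c) (c' := F - G) hm
  have h2 := abs_sqrt_sub_sqrt_le (a := (F - G) ^ 2 + 4 * m) (b := (F - G) ^ 2 + 4 * (F * G))
    (by positivity) (by positivity)
  have h3 : Real.sqrt ((F - G) ^ 2 + 4 * (F * G)) = F + G := by
    have : (F - G) ^ 2 + 4 * (F * G) = (F + G) ^ 2 := by ring
    rw [this, Real.sqrt_sq (by positivity)]
  have h4 : Real.sqrt |(F - G) ^ 2 + 4 * m - ((F - G) ^ 2 + 4 * (F * G))| ≤ 2 * d := by
    apply Real.sqrt_le_iff.mpr
    refine ⟨by positivity, ?_⟩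
    have : (F - G) ^ 2 + 4 * m - ((F - G) ^ 2 + 4 * (F * G)) = 4 * (m - F * G) := by ring
    rw [this, abs_mul, abs_of_pos (by norm_num : (0 : ℝ) < 4)]
    nlinarith
  rw [h3] at h2
  unfold RR SS
  have a1 := abs_le.mp (h1.trans hc)
  have a2 := abs_le.mp (h2.trans h4)
  have a3 := abs_le.mp hc
  constructor <;> rw [abs_le] <;> constructor <;> linarith [a1.1, a1.2, a2.1, a2.2, a3.1, a3.2]

/-- factorization for nonnegative `F, G` -/
lemma core {X : Type*} [TopologicalSpace X] [CompactSpace X] [T2Space X]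
    (hX : CoverDimLE X 1) (F G : C(X, ℝ)) (hF : ∀ x, 0 ≤ F x) (hG : ∀ x, 0 ≤ G x)
    (H : C(X, ℂ)) {d : ℝ} (hd : 0 < d)
    (h : ∀ x, ‖H x - ((F x * G x : ℝ) : ℂ)‖ ≤ d ^ 2) :
    ∃ U V : C(X, ℂ), (∀ x, U x * V x = H x) ∧ (∀ x, ‖U x - (F x : ℂ)‖ ≤ 8 * d) ∧
      ∀ x, ‖V x - (G x : ℂ)‖ ≤ 8 * d := by
  classical
  set m : C(X, ℝ) := ⟨fun x => ‖H x‖, by fun_prop⟩ with hm
  have hm' : ∀ x, m x = ‖H x‖ := fun x => rfl
  -- the weight
  set l : X → ℝ := fun x => max 0 (min 1 ((G x - F x + d) / (2 * d))) with hl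
  have hlc : Continuous l := by
    rw [hl]; fun_prop
  have hl0 : ∀ x, 0 ≤ l x := fun x => le_max_left _ _
  have hl1 : ∀ x, l x ≤ 1 := fun x => max_le (by norm_num) (min_le_left _ _)
  have hlP : ∀ x, d ≤ F x - G x → l x = 0 := by
    intro x hx
    have : (G x - F x + d) / (2 * d) ≤ 0 := div_nonpos_of_nonpos_of_nonneg (by linarith) (by linarith)
    simp only [hl]
    rw [max_eq_left]
    exact (min_le_right _ _).trans this
  have hlQ : ∀ x, d ≤ G x - F x → l x = 1 := by
    intro x hx
    have : 1 ≤ (G x - F x + d) / (2 * d) := by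
      rw [le_div_iff₀ (by linarith)]; linarith
    simp only [hl]
    rw [min_eq_left this, max_eq_right (by norm_num)]
  set w : X → ℂ := fun x => H x / ((‖H x‖ : ℝ) : ℂ) with hw
  set z : X → ℂ := fun x => ((1 - l x : ℝ) : ℂ) + ((l x : ℝ) : ℂ) * w x with hz
  have hpos : ∀ x, 0 < m x → H x ≠ 0 := by
    intro x hx h0; rw [hm', h0, norm_zero] at hx; exact lt_irrefl _ hx
  have hw1 : ∀ x, 0 < m x → ‖w x‖ = 1 := by
    intro x hx
    simp only [hw, norm_div, Complex.norm_real, norm_norm]
    exact div_self (norm_ne_zero_iff.mpr (hpos x hx))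
  have hwc : ∀ x, 0 < m x → ContinuousAt w x := by
    intro x hx
    apply ContinuousAt.div H.continuous.continuousAt (by fun_prop)
    exact_mod_cast norm_ne_zero_iff.mpr (hpos x hx)
  -- closeness of `w` to `1`
  have hwone : ∀ x, 0 < m x → 0 < F x * G x → ‖w x - 1‖ ≤ 2 * d ^ 2 / (F x * G x) := by
    intro x hx hp
    have h1 := norm_normalize_sub (hpos x hx) hp.le
    have h2 : ((F x * G x : ℝ) : ℂ) * (H x / ((‖H x‖ : ℝ) : ℂ)) - ((F x * G x : ℝ) : ℂ)
        = ((F x * G x : ℝ) : ℂ) * (w x - 1) := by rw [hw]; ring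
    rw [h2, norm_mul, Complex.norm_real, Real.norm_of_nonneg hp.le] at h1
    rw [le_div_iff₀ hp]
    have h3 := h x
    linarith
  set Fs : Set X := {x | d ≤ F x - G x} ∪ {x | d ≤ G x - F x} ∪ {x | 4 * d ^ 2 ≤ F x * G x} with hFs
  have hFs_closed : IsClosed Fs := by
    apply IsClosed.union
    · apply IsClosed.union
      · exact isClosed_le continuous_const (F.continuous.sub G.continuous)
      · exact isClosed_le continuous_const (G.continuous.sub F.continuous)
    · exact isClosed_le continuous_const (F.continuous.mul G.continuous)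
  -- `z` close to `1` in the big region
  have hzone : ∀ x, 0 < m x → 0 < F x * G x → ‖z x - 1‖ ≤ 2 * d ^ 2 / (F x * G x) := by
    intro x hx hp
    have h1 : z x - 1 = ((l x : ℝ) : ℂ) * (w x - 1) := by
      rw [hz]; push_cast; ring
    rw [h1, norm_mul, Complex.norm_real, Real.norm_of_nonneg (hl0 x)]
    calc l x * ‖w x - 1‖ ≤ 1 * ‖w x - 1‖ := mul_le_mul_of_nonneg_right (hl1 x) (norm_nonneg _)
      _ = ‖w x - 1‖ := one_mul _
      _ ≤ _ := hwone x hx hp
  have hzP : ∀ x, d ≤ F x - G x → z x = 1 := by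
    intro x hx; simp only [hz, hlP x hx]; simp
  have hzQ : ∀ x, d ≤ G x - F x → z x = w x := by
    intro x hx; simp only [hz, hlQ x hx]; simp
  have hz0 : ∀ x ∈ Fs, 0 < m x → z x ≠ 0 := by
    intro x hx hmx
    rcases hx with (hx | hx) | hx
    · rw [hzP x hx]; exact one_ne_zero
    · rw [hzQ x hx]
      intro h0
      have := hw1 x hmx
      rw [h0, norm_zero] at this
      exact zero_ne_one this
    · intro h0
      have hx' : 4 * d ^ 2 ≤ F x * G x := hx
      have hp : 0 < F x * G x := by nlinarith [sq_pos_of_pos hd]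
      have h1 := hzone x hmx hp
      rw [h0, zero_sub, norm_neg, norm_one, le_div_iff₀ hp] at h1
      nlinarith [sq_pos_of_pos hd]
  have hzc : ∀ x, 0 < m x → ContinuousAt z x := by
    intro x hx
    have h1 := hwc x hx
    have h2 : ContinuousAt l x := hlc.continuousAt
    rw [hz]
    fun_prop
  set φ : X → ℂ := fun x => z x / ((‖z x‖ : ℝ) : ℂ) with hφ
  have hφc : ContinuousOn φ (Fs ∩ {x | 0 < m x}) := by
    intro x hx
    apply ContinuousAt.continuousWithinAt
    have h1 := hzc x hx.2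
    apply ContinuousAt.div h1 (by fun_prop)
    exact_mod_cast norm_ne_zero_iff.mpr (hz0 x hx.1 hx.2)
  have hφ1 : ∀ x ∈ Fs, 0 < m x → ‖φ x‖ = 1 := by
    intro x hx hmx
    simp only [hφ, norm_div, Complex.norm_real, norm_norm]
    exact div_self (norm_ne_zero_iff.mpr (hz0 x hx hmx))
  obtain ⟨a, hac, ha1, haφ⟩ := ext_cozero hX m hFs_closed φ hφc hφ1
  -- the unimodular factors
  set α : X → ℂ := fun x => if 0 < m x then a x else 1 with hα
  set β : X → ℂ := fun x => if 0 < m x then w x * (starRingEnd ℂ) (a x) else 1 with hβ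
  have hα1 : ∀ x, ‖α x‖ = 1 := by
    intro x
    by_cases hx : 0 < m x
    · simp only [hα, if_pos hx, ha1]
    · simp only [hα, if_neg hx, norm_one]
  have hβ1 : ∀ x, ‖β x‖ = 1 := by
    intro x
    by_cases hx : 0 < m x
    · simp only [hβ, if_pos hx, norm_mul, RCLike.norm_conj, ha1, hw1 x hx, mul_one]
    · simp only [hβ, if_neg hx, norm_one]
  have hαP : ∀ x, d ≤ F x - G x → α x = 1 := by
    intro x hx
    by_cases hmx : 0 < m x
    · simp only [hα, if_pos hmx]
      rw [haφ x (Or.inl (Or.inl hx)) hmx]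
      simp only [hφ, hzP x hx]; simp
    · simp only [hα, if_neg hmx]
  have hβQ : ∀ x, d ≤ G x - F x → β x = 1 := by
    intro x hx
    by_cases hmx : 0 < m x
    · simp only [hβ, if_pos hmx]
      rw [haφ x (Or.inl (Or.inr hx)) hmx]
      simp only [hφ, hzQ x hx, hw1 x hmx]
      rw [Complex.ofReal_one, div_one, Complex.mul_conj, Complex.normSq_eq_norm_sq, hw1 x hmx]
      simp
    · simp only [hβ, if_neg hmx]
  -- difference of moduli
  set c : X → ℝ := fun x => max (F x - G x - d) 0 - max (G x - F x - d) 0 with hc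
  have hcc : Continuous c := by rw [hc]; fun_prop
  have hcclose : ∀ x, |c x - (F x - G x)| ≤ d := by
    intro x
    simp only [hc]
    rcases le_total (F x - G x) d with h1 | h1
    · rw [max_eq_right (by linarith : F x - G x - d ≤ 0)]
      rcases le_total (G x - F x) d with h2 | h2
      · rw [max_eq_right (by linarith : G x - F x - d ≤ 0), abs_le]
        constructor <;> linarith
      · rw [max_eq_left (by linarith : 0 ≤ G x - F x - d), abs_le]
        constructor <;> linarith
    · rw [max_eq_left (by linarith : 0 ≤ F x - G x - d)]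
      rw [max_eq_right (by linarith : G x - F x - d ≤ 0), abs_le]
      constructor <;> linarith
  have hcnonpos : ∀ x, F x - G x ≤ d → c x ≤ 0 := by
    intro x hx
    simp only [hc]
    rw [max_eq_right (by linarith : F x - G x - d ≤ 0)]
    have := le_max_right (G x - F x - d) 0
    linarith
  have hcnonneg : ∀ x, G x - F x ≤ d → 0 ≤ c x := by
    intro x hx
    simp only [hc]
    rw [max_eq_right (by linarith : G x - F x - d ≤ 0)]
    have := le_max_right (F x - G x - d) 0
    linarith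
  set R : X → ℝ := fun x => RR (c x) (m x) with hR
  set S : X → ℝ := fun x => SS (c x) (m x) with hS
  have hRc : Continuous R := by rw [hR]; unfold RR; fun_prop
  have hSc : Continuous S := by rw [hS]; unfold SS; fun_prop
  have hm0 : ∀ x, 0 ≤ m x := fun x => by rw [hm']; exact norm_nonneg _
  have hR0 : ∀ x, 0 ≤ R x := fun x => RR_nonneg (hm0 x)
  have hS0 : ∀ x, 0 ≤ S x := fun x => SS_nonneg (hm0 x)
  have hclose : ∀ x, |R x - F x| ≤ 2 * d ∧ |S x - G x| ≤ 2 * d := by
    intro x
    refine moduli_close (hF x) (hG x) (hm0 x) hd.le ?_ (hcclose x)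
    have h1 := abs_norm_sub_norm_le (H x) ((F x * G x : ℝ) : ℂ)
    rw [Complex.norm_real, Real.norm_of_nonneg (mul_nonneg (hF x) (hG x))] at h1
    exact h1.trans (h x)
  -- continuity of `R α` and `S β`
  have hUc : Continuous (fun x => (R x : ℂ) * α x) := by
    rw [continuous_iff_continuousAt]
    intro x
    by_cases hmx : 0 < m x
    · have h1 : α =ᶠ[𝓝 x] a := by
        filter_upwards [(isOpen_lt continuous_const m.continuous).mem_nhds hmx] with y hy
        simp only [hα]
        exact if_pos hy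
      have h2 : ContinuousAt α x := (hac x hmx).congr h1.symm
      have h3 : ContinuousAt R x := hRc.continuousAt
      fun_prop
    · have hmx0 : m x = 0 := le_antisymm (not_lt.mp hmx) (hm0 x)
      by_cases hx : d < F x - G x
      · have h1 : (fun x => (R x : ℂ) * α x) =ᶠ[𝓝 x] fun x => (R x : ℂ) := by
          filter_upwards [(isOpen_lt continuous_const
            (F.continuous.sub G.continuous)).mem_nhds hx] with y hy
          rw [hαP y (le_of_lt hy), mul_one]
        exact (by fun_prop : ContinuousAt (fun x => (R x : ℂ)) x).congr h1.symm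
      · have hRx : R x = 0 := by
          simp only [hR]; rw [hmx0]; exact RR_eq_zero (hcnonpos x (not_lt.mp hx))
        have h4 : (R x : ℂ) * α x = 0 := by rw [hRx]; simp
        rw [ContinuousAt, h4]
        apply squeeze_zero_norm (a := R)
        · intro y
          rw [norm_mul, hα1, mul_one, Complex.norm_real, Real.norm_of_nonneg (hR0 y)]
        · have := hRc.tendsto x
          rwa [hRx] at this
  have hVc : Continuous (fun x => (S x : ℂ) * β x) := by
    rw [continuous_iff_continuousAt]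
    intro x
    by_cases hmx : 0 < m x
    · have h1 : β =ᶠ[𝓝 x] fun y => w y * (starRingEnd ℂ) (a y) := by
        filter_upwards [(isOpen_lt continuous_const m.continuous).mem_nhds hmx] with y hy
        simp only [hβ]
        exact if_pos hy
      have h5 : ContinuousAt (fun y => w y * (starRingEnd ℂ) (a y)) x :=
        (hwc x hmx).mul (Complex.continuous_conj.continuousAt.comp (hac x hmx))
      have h2 : ContinuousAt β x := h5.congr h1.symm
      have h3 : ContinuousAt S x := hSc.continuousAt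
      fun_prop
    · have hmx0 : m x = 0 := le_antisymm (not_lt.mp hmx) (hm0 x)
      by_cases hx : d < G x - F x
      · have h1 : (fun x => (S x : ℂ) * β x) =ᶠ[𝓝 x] fun x => (S x : ℂ) := by
          filter_upwards [(isOpen_lt continuous_const
            (G.continuous.sub F.continuous)).mem_nhds hx] with y hy
          rw [hβQ y (le_of_lt hy), mul_one]
        exact (by fun_prop : ContinuousAt (fun x => (S x : ℂ)) x).congr h1.symm
      · have hSx : S x = 0 := by
          simp only [hS]; rw [hmx0]; exact SS_eq_zero (hcnonneg x (not_lt.mp hx))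
        have h4 : (S x : ℂ) * β x = 0 := by rw [hSx]; simp
        rw [ContinuousAt, h4]
        apply squeeze_zero_norm (a := S)
        · intro y
          rw [norm_mul, hβ1, mul_one, Complex.norm_real, Real.norm_of_nonneg (hS0 y)]
        · have := hSc.tendsto x
          rwa [hSx] at this
  -- phase estimates
  have hphase : ∀ x, F x * ‖α x - 1‖ ≤ 6 * d ∧ G x * ‖β x - 1‖ ≤ 6 * d := by
    intro x
    have hα2 : ‖α x - 1‖ ≤ 2 := by
      calc ‖α x - 1‖ ≤ ‖α x‖ + ‖(1 : ℂ)‖ := norm_sub_le _ _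
        _ = 2 := by rw [hα1, norm_one]; norm_num
    have hβ2 : ‖β x - 1‖ ≤ 2 := by
      calc ‖β x - 1‖ ≤ ‖β x‖ + ‖(1 : ℂ)‖ := norm_sub_le _ _
        _ = 2 := by rw [hβ1, norm_one]; norm_num
    have hα0 := norm_nonneg (α x - 1)
    have hβ0 := norm_nonneg (β x - 1)
    have hFx := hF x
    have hGx := hG x
    by_cases hmx : 0 < m x
    swap
    · have e1 : α x = 1 := by simp only [hα, if_neg hmx]
      have e2 : β x = 1 := by simp only [hβ, if_neg hmx]
      rw [e1, e2, sub_self, norm_zero, mul_zero, mul_zero]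
      constructor <;> positivity
    by_cases hP : d ≤ F x - G x
    · -- `α = 1`, `β = w`
      have e1 : α x = 1 := hαP x hP
      have e2 : β x = w x := by
        have e3 : a x = 1 := by
          have := e1; simp only [hα, if_pos hmx] at this; exact this
        simp only [hβ, if_pos hmx, e3]; simp
      refine ⟨by rw [e1, sub_self, norm_zero, mul_zero]; positivity, ?_⟩
      rcases le_total (G x) d with h1 | h1
      · nlinarith
      · have hGp : 0 < G x := lt_of_lt_of_le hd h1
        have hFp : d ≤ F x := by linarith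
        have hp : 0 < F x * G x := mul_pos (lt_of_lt_of_le hd hFp) hGp
        have h2 := hwone x hmx hp
        rw [le_div_iff₀ hp] at h2
        rw [e2]
        -- `‖w-1‖ F G ≤ 2 d²`, `F ≥ d`
        have h3 : G x * ‖w x - 1‖ * d ≤ 2 * d ^ 2 := by
          have h4 : G x * ‖w x - 1‖ * d ≤ G x * ‖w x - 1‖ * F x :=
            mul_le_mul_of_nonneg_left hFp (mul_nonneg hGx (norm_nonneg _))
          linarith
        nlinarith
    by_cases hQ : d ≤ G x - F x
    · have e1 : β x = 1 := hβQ x hQ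
      have e2 : α x = w x := by
        simp only [hα, if_pos hmx]
        rw [haφ x (Or.inl (Or.inr hQ)) hmx]
        simp only [hφ, hzQ x hQ, hw1 x hmx]; simp
      refine ⟨?_, by rw [e1, sub_self, norm_zero, mul_zero]; positivity⟩
      rcases le_total (F x) d with h1 | h1
      · nlinarith
      · have hFp : 0 < F x := lt_of_lt_of_le hd h1
        have hGp : d ≤ G x := by linarith
        have hp : 0 < F x * G x := mul_pos hFp (lt_of_lt_of_le hd hGp)
        have h2 := hwone x hmx hp
        rw [le_div_iff₀ hp] at h2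
        rw [e2]
        have h3 : F x * ‖w x - 1‖ * d ≤ 2 * d ^ 2 := by
          have h4 : F x * ‖w x - 1‖ * d ≤ F x * ‖w x - 1‖ * G x :=
            mul_le_mul_of_nonneg_left hGp (mul_nonneg hFx (norm_nonneg _))
          linarith
        nlinarith
    push Not at hP hQ
    by_cases hbig : 4 * d ^ 2 ≤ F x * G x
    · have hd2 : 0 < d ^ 2 := sq_pos_of_pos hd
      have hp : 0 < F x * G x := by linarith
      have hFd : d ≤ F x := by
        by_contra hcon
        push Not at hcon
        nlinarith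
      have hGd : d ≤ G x := by
        by_contra hcon
        push Not at hcon
        nlinarith
      have hz1 := hzone x hmx hp
      have hw2 := hwone x hmx hp
      have e2 : α x = φ x := by
        simp only [hα, if_pos hmx]
        exact haφ x (Or.inr hbig) hmx
      have hzne := hz0 x (Or.inr hbig) hmx
      have h1 := norm_normalize_sub hzne (zero_le_one)
      simp only [Complex.ofReal_one, one_mul] at h1
      have h2 : ‖α x - 1‖ ≤ 2 * (2 * d ^ 2 / (F x * G x)) := by
        rw [e2]; exact h1.trans (by linarith)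
      have h3 : ‖β x - 1‖ ≤ 3 * (2 * d ^ 2 / (F x * G x)) := by
        have e3 : β x - 1 = (w x - α x) * (starRingEnd ℂ) (α x) := by
          have e4 : α x * (starRingEnd ℂ) (α x) = 1 := by
            rw [Complex.mul_conj, Complex.normSq_eq_norm_sq, hα1]; simp
          have e5 : a x = α x := by simp only [hα, if_pos hmx]
          have e6 : β x = w x * (starRingEnd ℂ) (α x) := by
            simp only [hβ, if_pos hmx, e5]
          rw [e6, sub_mul, e4]
        rw [e3, norm_mul, RCLike.norm_conj, hα1, mul_one]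
        calc ‖w x - α x‖ = ‖(w x - 1) + (1 - α x)‖ := by ring_nf
          _ ≤ ‖w x - 1‖ + ‖1 - α x‖ := norm_add_le _ _
          _ = ‖w x - 1‖ + ‖α x - 1‖ := by rw [norm_sub_rev 1]
          _ ≤ _ := by linarith
      have h4 : F x * (2 * d ^ 2 / (F x * G x)) ≤ 2 * d := by
        have : F x * (2 * d ^ 2 / (F x * G x)) = 2 * d ^ 2 / G x := by
          have hF' : F x ≠ 0 := (lt_of_lt_of_le hd hFd).ne'
          have hG' : G x ≠ 0 := (lt_of_lt_of_le hd hGd).ne'
          field_simp
        rw [this, div_le_iff₀ (lt_of_lt_of_le hd hGd)]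
        nlinarith
      have h5 : G x * (2 * d ^ 2 / (F x * G x)) ≤ 2 * d := by
        have : G x * (2 * d ^ 2 / (F x * G x)) = 2 * d ^ 2 / F x := by
          have hF' : F x ≠ 0 := (lt_of_lt_of_le hd hFd).ne'
          have hG' : G x ≠ 0 := (lt_of_lt_of_le hd hGd).ne'
          field_simp
        rw [this, div_le_iff₀ (lt_of_lt_of_le hd hFd)]
        nlinarith
      constructor
      · calc F x * ‖α x - 1‖ ≤ F x * (2 * (2 * d ^ 2 / (F x * G x))) :=
              mul_le_mul_of_nonneg_left h2 hFx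
          _ = 2 * (F x * (2 * d ^ 2 / (F x * G x))) := by ring
          _ ≤ 6 * d := by linarith
      · calc G x * ‖β x - 1‖ ≤ G x * (3 * (2 * d ^ 2 / (F x * G x))) :=
              mul_le_mul_of_nonneg_left h3 hGx
          _ = 3 * (G x * (2 * d ^ 2 / (F x * G x))) := by ring
          _ ≤ 6 * d := by linarith
    · push Not at hbig
      have hF3 : F x ≤ 3 * d := by
        by_contra hcon
        push Not at hcon
        have : 2 * d < G x := by linarith
        nlinarith
      have hG3 : G x ≤ 3 * d := by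
        by_contra hcon
        push Not at hcon
        have : 2 * d < F x := by linarith
        nlinarith
      constructor
      · calc F x * ‖α x - 1‖ ≤ (3 * d) * 2 := mul_le_mul hF3 hα2 hα0 (by positivity)
          _ = 6 * d := by ring
      · calc G x * ‖β x - 1‖ ≤ (3 * d) * 2 := mul_le_mul hG3 hβ2 hβ0 (by positivity)
          _ = 6 * d := by ring
  refine ⟨⟨fun x => (R x : ℂ) * α x, hUc⟩, ⟨fun x => (S x : ℂ) * β x, hVc⟩, ?_, ?_, ?_⟩
  · intro x
    simp only [ContinuousMap.coe_mk]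
    have h1 : R x * S x = m x := RR_mul_SS (hm0 x)
    have h2 : (R x : ℂ) * α x * ((S x : ℂ) * β x) = ((R x * S x : ℝ) : ℂ) * (α x * β x) := by
      push_cast; ring
    rw [h2, h1]
    by_cases hmx : 0 < m x
    · have h3 : a x * (starRingEnd ℂ) (a x) = 1 := by
        rw [Complex.mul_conj, Complex.normSq_eq_norm_sq, ha1]; simp
      have h4 : α x * β x = w x := by
        simp only [hα, hβ, if_pos hmx]
        calc a x * (w x * (starRingEnd ℂ) (a x)) = w x * (a x * (starRingEnd ℂ) (a x)) := by ring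
          _ = w x := by rw [h3, mul_one]
      rw [h4, hm']
      have h5 : ((‖H x‖ : ℝ) : ℂ) ≠ 0 := by
        exact_mod_cast norm_ne_zero_iff.mpr (hpos x hmx)
      simp only [hw]
      field_simp
    · have hmx0 : m x = 0 := le_antisymm (not_lt.mp hmx) (hm0 x)
      have h6 : H x = 0 := by rw [hm'] at hmx0; exact norm_eq_zero.mp hmx0
      rw [hmx0, h6]; simp
  · intro x
    simp only [ContinuousMap.coe_mk]
    have h1 : (R x : ℂ) * α x - (F x : ℂ) = ((R x - F x : ℝ) : ℂ) * α x + (F x : ℂ) * (α x - 1) := by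
      push_cast; ring
    rw [h1]
    calc _ ≤ ‖((R x - F x : ℝ) : ℂ) * α x‖ + ‖(F x : ℂ) * (α x - 1)‖ := norm_add_le _ _
      _ = |R x - F x| + F x * ‖α x - 1‖ := by
          rw [norm_mul, norm_mul, hα1, mul_one, Complex.norm_real, Complex.norm_real,
            Real.norm_eq_abs, Real.norm_of_nonneg (hF x)]
      _ ≤ 8 * d := by linarith [(hclose x).1, (hphase x).1]
  · intro x
    simp only [ContinuousMap.coe_mk]
    have h1 : (S x : ℂ) * β x - (G x : ℂ) = ((S x - G x : ℝ) : ℂ) * β x + (G x : ℂ) * (β x - 1) := by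
      push_cast; ring
    rw [h1]
    calc _ ≤ ‖((S x - G x : ℝ) : ℂ) * β x‖ + ‖(G x : ℂ) * (β x - 1)‖ := norm_add_le _ _
      _ = |S x - G x| + G x * ‖β x - 1‖ := by
          rw [norm_mul, norm_mul, hβ1, mul_one, Complex.norm_real, Complex.norm_real,
            Real.norm_eq_abs, Real.norm_of_nonneg (hG x)]
      _ ≤ 8 * d := by linarith [(hclose x).2, (hphase x).2]

end Pool.Agent.U317.OM
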